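import Pool.Agent.R649.ET.Lin

set_option autoImplicit false

/-! Unions of subgroups of groups of exponent two with at most sixteen elements. -/

namespace Pool.Agent.R649.ETS

section
variable {B : Type*} [AddCommGroup B]

lemma le_four {n : ℕ} (h : 2 ^ n ≤ 16) : n ≤ 4 := by
  by_contra hc
  have : 2 ^ 5 ≤ 2 ^ n := Nat.pow_le_pow_right (by norm_num) (by omega)
  omega

lemma le_three {n : ℕ} (h : 2 ^ n ≤ 8) : n ≤ 3 := by
  by_contra hc
  have : 2 ^ 4 ≤ 2 ^ n := Nat.pow_le_pow_right (by norm_num) (by omega)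
  omega

lemma card_le_ncard {U : Set B} (hU : U.Finite) (X : AddSubgroup B) (hX : (X : Set B) ⊆ U) :
    Nat.card X ≤ U.ncard := Set.ncard_le_ncard hX hU

/-- three subgroups with equal pairwise sums, one of them with eight elements: if the union has at
most sixteen elements, so has the sum -/
lemma three_big (hB : ∀ b : B, b + b = 0) (X Y Z : AddSubgroup B) [Finite X] [Finite Y] [Finite Z]
    (h1 : X ≤ Y ⊔ Z) (h2 : Y ≤ X ⊔ Z) (h3 : Z ≤ X ⊔ Y) (hX : Nat.card X = 8)
    (hU : ((X : Set B) ∪ Y ∪ Z).ncard ≤ 16) : Nat.card (X ⊔ Y : AddSubgroup B) ≤ 16 := by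
  have e1 : X ⊔ Z = X ⊔ Y := le_antisymm (sup_le le_sup_left h3) (sup_le le_sup_left h2)
  have e2 : Y ⊔ Z = X ⊔ Y := le_antisymm (sup_le le_sup_right h3) (sup_le h1 le_sup_left)
  have fU : ((X : Set B) ∪ Y ∪ Z).Finite :=
    ((Set.toFinite (X : Set B)).union (Set.toFinite _)).union (Set.toFinite _)
  have c1 := card_sup_inf X Y
  have c2 := card_sup_inf X Z
  have c3 := card_sup_inf Y Z
  rw [e1] at c2
  rw [e2] at c3
  have u := union_three X Y Z
  have : Finite (X ⊔ Y : AddSubgroup B) := by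
    have hpos : Nat.card (X ⊔ Y : AddSubgroup B) ≠ 0 := by
      intro h0
      rw [h0, zero_mul, hX] at c1
      have : 0 < Nat.card Y := Nat.card_pos
      omega
    exact Nat.finite_of_card_ne_zero hpos
  obtain ⟨y, hy⟩ := pow_two hB Y
  obtain ⟨z, hz⟩ := pow_two hB Z
  obtain ⟨d, hd⟩ := pow_two hB (X ⊔ Y)
  have hy4 : Nat.card Y ≤ 16 := (card_le_ncard fU Y (fun b hb => Or.inl (Or.inr hb))).trans hU
  have hz4 : Nat.card Z ≤ 16 := (card_le_ncard fU Z (fun b hb => Or.inr hb)).trans hU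
  rw [hy] at hy4
  rw [hz] at hz4
  have y4 := le_four hy4
  have z4 := le_four hz4
  by_contra hcon
  rw [hd] at hcon
  have d5 : 5 ≤ d := by
    by_contra hc
    apply hcon
    calc 2 ^ d ≤ 2 ^ 4 := Nat.pow_le_pow_right (by norm_num) (by omega)
      _ = 16 := by norm_num
  rw [hX, hy, hz] at u
  rw [hX, hy, hd] at c1
  rw [hX, hz, hd] at c2
  rw [hy, hz, hd] at c3
  have i1 : 0 < Nat.card (X ⊓ Y : AddSubgroup B) := by
    rcases Nat.eq_zero_or_pos (Nat.card (X ⊓ Y : AddSubgroup B)) with h | h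
    · rw [h, mul_zero] at c1
      have : 0 < 2 ^ y := Nat.two_pow_pos y
      omega
    · exact h
  have d7 : d ≤ 7 := by
    by_contra hc
    have h8 : 2 ^ 8 ≤ 2 ^ d := Nat.pow_le_pow_right (by norm_num) (by omega)
    have h9 : 2 ^ y ≤ 2 ^ 4 := Nat.pow_le_pow_right (by norm_num) y4
    have : 2 ^ d * 1 ≤ 2 ^ d * Nat.card (X ⊓ Y : AddSubgroup B) := Nat.mul_le_mul_left _ i1
    omega
  generalize Nat.card (X ⊓ Y : AddSubgroup B) = I at *
  generalize Nat.card (X ⊓ Z : AddSubgroup B) = J at *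
  generalize Nat.card (Y ⊓ Z : AddSubgroup B) = K at *
  clear hy hz hd hcon hy4 hz4
  interval_cases y <;> interval_cases z <;> interval_cases d <;> omega

/-- if the sum has sixteen elements, then the two other subgroups have four elements outside `X` -/
lemma three_small (X Y Z : AddSubgroup B) (hB : ∀ b : B, b + b = 0)
    [Finite X] [Finite Y] [Finite Z]
    (h1 : X ≤ Y ⊔ Z) (h2 : Y ≤ X ⊔ Z) (h3 : Z ≤ X ⊔ Y) (hX : Nat.card X = 8)
    (hXY : Nat.card (X ⊔ Y : AddSubgroup B) = 16) (hY : Nat.card Y ≤ 8) (hZ : Nat.card Z ≤ 8) :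
    4 ≤ (((Y : Set B) ∪ Z) \ X).ncard := by
  have e1 : X ⊔ Z = X ⊔ Y := le_antisymm (sup_le le_sup_left h3) (sup_le le_sup_left h2)
  have e2 : Y ⊔ Z = X ⊔ Y := le_antisymm (sup_le le_sup_right h3) (sup_le h1 le_sup_left)
  have c1 := card_sup_inf X Y
  have c2 := card_sup_inf X Z
  have c3 := card_sup_inf Y Z
  rw [e1] at c2
  rw [e2] at c3
  have u := union_three X Y Z
  obtain ⟨y, hy⟩ := pow_two hB Y
  obtain ⟨z, hz⟩ := pow_two hB Z
  have y3 := le_three (hy ▸ hY)
  have z3 := le_three (hz ▸ hZ)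
  have hd : ((X : Set B) ∪ Y ∪ Z).ncard = Nat.card X + (((Y : Set B) ∪ Z) \ X).ncard := by
    have e : (X : Set B) ∪ Y ∪ Z = (X : Set B) ∪ (((Y : Set B) ∪ Z) \ X) := by
      rw [Set.union_sdiff_self, Set.union_assoc]
    rw [e, Set.ncard_union_eq Set.disjoint_sdiff_right (Set.toFinite _)
      (((Set.toFinite (Y : Set B)).union (Set.toFinite _)).subset Set.sdiff_subset)]
    rfl
  rw [hd, hX, hy, hz] at u
  rw [hX, hy, hXY] at c1
  rw [hX, hz, hXY] at c2
  rw [hy, hz, hXY] at c3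
  generalize Nat.card (X ⊓ Y : AddSubgroup B) = I at *
  generalize Nat.card (X ⊓ Z : AddSubgroup B) = J at *
  generalize Nat.card (Y ⊓ Z : AddSubgroup B) = K at *
  clear hy hz
  interval_cases y <;> interval_cases z <;> omega

/-- a subgroup contained in a set with at most as many elements is that set -/
lemma eq_of_card {U : Set B} (hU : U.Finite) (X : AddSubgroup B) (hX : (X : Set B) ⊆ U)
    (hc : U.ncard ≤ Nat.card X) : (X : Set B) = U := Set.eq_of_subset_of_ncard_le hX hc hU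

/-- **the counting lemma** -/
lemma index_two (hB : ∀ b : B, b + b = 0) (U : Set B) (hU : U.Finite) (hU16 : U.ncard ≤ 16)
    (X Ya Za Yb Zb Yc Zc : AddSubgroup B) (uX : (X : Set B) ⊆ U)
    (uYa : (Ya : Set B) ⊆ U) (uZa : (Za : Set B) ⊆ U) (uYb : (Yb : Set B) ⊆ U)
    (uZb : (Zb : Set B) ⊆ U) (uYc : (Yc : Set B) ⊆ U) (uZc : (Zc : Set B) ⊆ U)
    (a1 : X ≤ Ya ⊔ Za) (a2 : Ya ≤ X ⊔ Za) (a3 : Za ≤ X ⊔ Ya)
    (b1 : X ≤ Yb ⊔ Zb) (b2 : Yb ≤ X ⊔ Zb) (b3 : Zb ≤ X ⊔ Yb)
    (c1 : X ≤ Yc ⊔ Zc) (c2 : Yc ≤ X ⊔ Zc) (c3 : Zc ≤ X ⊔ Yc)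
    (d1 : Ya ≤ Yb ⊔ Yc) (d2 : Yb ≤ Ya ⊔ Yc) (d3 : Yc ≤ Ya ⊔ Yb)
    (hX : 4 < Nat.card X) : Nat.card (X ⊔ Ya ⊔ Yb : AddSubgroup B) ≤ 2 * Nat.card X := by
  have : Finite X := hU.subset uX
  have : Finite Ya := hU.subset uYa
  have : Finite Za := hU.subset uZa
  have : Finite Yb := hU.subset uYb
  have : Finite Zb := hU.subset uZb
  have : Finite Yc := hU.subset uYc
  have : Finite Zc := hU.subset uZc
  -- a subgroup with sixteen elements contains everything
  have big : ∀ W : AddSubgroup B, (W : Set B) ⊆ U → 16 ≤ Nat.card W → X ⊔ Ya ⊔ Yb ≤ W := by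
    intro W hW h16
    have e := eq_of_card hU W hW (hU16.trans h16)
    refine sup_le (sup_le ?_ ?_) ?_
    · intro b hb
      have : b ∈ (W : Set B) := e ▸ uX hb
      exact this
    · intro b hb
      have : b ∈ (W : Set B) := e ▸ uYa hb
      exact this
    · intro b hb
      have : b ∈ (W : Set B) := e ▸ uYb hb
      exact this
  obtain ⟨x, hx⟩ := pow_two hB X
  have hx16 : Nat.card X ≤ 16 := (card_le_ncard hU X uX).trans hU16
  have x4 := le_four (hx ▸ hx16)
  have x3 : 3 ≤ x := by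
    by_contra hc
    have : 2 ^ x ≤ 2 ^ 2 := Nat.pow_le_pow_right (by norm_num) (by omega)
    omega
  by_contra hcon
  push Not at hcon
  have x3' : x = 3 := by
    by_contra hc
    have hx4 : x = 4 := by omega
    rw [hx4] at hx
    have h1 := big X uX (by omega)
    have h2 : Nat.card (X ⊔ Ya ⊔ Yb : AddSubgroup B) ≤ Nat.card X :=
      Nat.card_le_card_of_injective (AddSubgroup.inclusion h1) (AddSubgroup.inclusion_injective h1)
    omega
  rw [x3'] at hx
  have hX8 : Nat.card X = 8 := by omega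
  rw [hX8] at hcon
  -- all the other subgroups have at most eight elements
  have small : ∀ W : AddSubgroup B, (W : Set B) ⊆ U → Nat.card W ≤ 8 := by
    intro W hW
    by_contra hc
    have : Finite W := hU.subset hW
    obtain ⟨w, hw⟩ := pow_two hB W
    have hw4 : 4 ≤ w := by
      by_contra h
      have : 2 ^ w ≤ 2 ^ 3 := Nat.pow_le_pow_right (by norm_num) (by omega)
      omega
    have h16 : 16 ≤ Nat.card W := by
      rw [hw]
      calc 16 = 2 ^ 4 := by norm_num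
        _ ≤ 2 ^ w := Nat.pow_le_pow_right (by norm_num) hw4
    have h1 := big W hW h16
    have h2 : Nat.card (X ⊔ Ya ⊔ Yb : AddSubgroup B) ≤ Nat.card W :=
      Nat.card_le_card_of_injective (AddSubgroup.inclusion h1) (AddSubgroup.inclusion_injective h1)
    have h3 := (card_le_ncard hU W hW).trans hU16
    omega
  have un : ∀ Y Z : AddSubgroup B, (Y : Set B) ⊆ U → (Z : Set B) ⊆ U →
      ((X : Set B) ∪ Y ∪ Z).ncard ≤ 16 := fun Y Z hY hZ =>
    (Set.ncard_le_ncard (Set.union_subset (Set.union_subset uX hY) hZ) hU).trans hU16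
  have ha := three_big hB X Ya Za a1 a2 a3 hX8 (un _ _ uYa uZa)
  have hb := three_big hB X Yb Zb b1 b2 b3 hX8 (un _ _ uYb uZb)
  have hc := three_big hB X Yc Zc c1 c2 c3 hX8 (un _ _ uYc uZc)
  set V : AddSubgroup B := X ⊔ Ya ⊔ Yb with hV
  have fV : Finite V := by
    apply Nat.finite_of_card_ne_zero
    omega
  obtain ⟨v, hv⟩ := pow_two hB V
  have v5 : 5 ≤ v := by
    by_contra h
    have : 2 ^ v ≤ 2 ^ 4 := Nat.pow_le_pow_right (by norm_num) (by omega)
    omega
  have hV32 : 32 ≤ Nat.card V := by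
    rw [hv]
    calc 32 = 2 ^ 5 := by norm_num
      _ ≤ 2 ^ v := Nat.pow_le_pow_right (by norm_num) v5
  -- pairs
  have pair : ∀ P Q : AddSubgroup B, X ≤ P → X ≤ Q → P ⊔ Q = V → Nat.card P ≤ 16 →
      Nat.card Q ≤ 16 → Nat.card P = 16 ∧ Nat.card Q = 16 ∧ P ⊓ Q = X := by
    intro P Q hXP hXQ hPQ hP hQ
    have hPV : P ≤ V := hPQ ▸ le_sup_left
    have fP : Finite P := Finite.of_injective _ (AddSubgroup.inclusion_injective hPV)
    have h1 := card_sup_inf P Q
    rw [hPQ] at h1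
    have hi : X ≤ P ⊓ Q := le_inf hXP hXQ
    have fI : Finite (P ⊓ Q : AddSubgroup B) :=
      Finite.of_injective _ (AddSubgroup.inclusion_injective (inf_le_left : P ⊓ Q ≤ P))
    have h2 : 8 ≤ Nat.card (P ⊓ Q : AddSubgroup B) := by
      rw [← hX8]
      exact Nat.card_le_card_of_injective _ (AddSubgroup.inclusion_injective hi)
    have h3 : 32 * 8 ≤ Nat.card P * Nat.card Q := by
      rw [← h1]
      exact Nat.mul_le_mul hV32 h2
    have h4 : Nat.card P = 16 := by
      by_contra h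
      have h5 : Nat.card P ≤ 15 := by omega
      have := Nat.mul_le_mul h5 hQ
      omega
    have h5 : Nat.card Q = 16 := by
      rw [h4] at h3
      omega
    refine ⟨h4, h5, ?_⟩
    rw [h4, h5] at h1
    have h6 : Nat.card (P ⊓ Q : AddSubgroup B) ≤ 8 := by
      by_contra h
      have h7 : 9 ≤ Nat.card (P ⊓ Q : AddSubgroup B) := by omega
      have := Nat.mul_le_mul hV32 h7
      omega
    have h8 : (X : Set B) = (P ⊓ Q : AddSubgroup B) :=
      eq_of_card (Set.toFinite _) X hi (by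
        show Nat.card (P ⊓ Q : AddSubgroup B) ≤ Nat.card X
        omega)
    exact (SetLike.coe_injective h8).symm
  have eab : (X ⊔ Ya) ⊔ (X ⊔ Yb) = V := by
    rw [hV]
    refine le_antisymm (sup_le le_sup_left (sup_le (le_sup_left.trans le_sup_left) le_sup_right))
      (sup_le le_sup_left (le_sup_right.trans le_sup_right))
  have eac : (X ⊔ Ya) ⊔ (X ⊔ Yc) = V := by
    rw [hV]
    refine le_antisymm (sup_le le_sup_left (sup_le (le_sup_left.trans le_sup_left) ?_))
      (sup_le le_sup_left (d2.trans (sup_le (le_sup_right.trans le_sup_left)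
        (le_sup_right.trans le_sup_right))))
    exact d3.trans (sup_le (le_sup_right.trans le_sup_left) le_sup_right)
  have ebc : (X ⊔ Yb) ⊔ (X ⊔ Yc) = V := by
    rw [hV]
    refine le_antisymm (sup_le (sup_le (le_sup_left.trans le_sup_left) le_sup_right)
      (sup_le (le_sup_left.trans le_sup_left) ?_)) (sup_le (sup_le (le_sup_left.trans le_sup_left)
        (d1.trans (sup_le (le_sup_right.trans le_sup_left) (le_sup_right.trans le_sup_right))))
        (le_sup_right.trans le_sup_left))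
    exact d3.trans (sup_le (le_sup_right.trans le_sup_left) le_sup_right)
  obtain ⟨na, nb, iab⟩ := pair _ _ le_sup_left le_sup_left eab ha hb
  obtain ⟨-, nc, iac⟩ := pair _ _ le_sup_left le_sup_left eac ha hc
  obtain ⟨-, -, ibc⟩ := pair _ _ le_sup_left le_sup_left ebc hb hc
  have sa := three_small X Ya Za hB a1 a2 a3 hX8 na (small _ uYa) (small _ uZa)
  have sb := three_small X Yb Zb hB b1 b2 b3 hX8 nb (small _ uYb) (small _ uZb)
  have sc := three_small X Yc Zc hB c1 c2 c3 hX8 nc (small _ uYc) (small _ uZc)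
  -- the sets of elements outside `X` are disjoint
  have inA : ∀ Y Z : AddSubgroup B, Z ≤ X ⊔ Y → ∀ b ∈ ((Y : Set B) ∪ Z) \ X, b ∈ X ⊔ Y ∧ b ∉ X := by
    rintro Y Z hZ b ⟨hb | hb, hb'⟩
    · exact ⟨(le_sup_right : Y ≤ X ⊔ Y) hb, hb'⟩
    · exact ⟨hZ hb, hb'⟩
  have dis : ∀ Y Z Y' Z' : AddSubgroup B, Z ≤ X ⊔ Y → Z' ≤ X ⊔ Y' → (X ⊔ Y) ⊓ (X ⊔ Y') = X →
      Disjoint (((Y : Set B) ∪ Z) \ X) (((Y' : Set B) ∪ Z') \ X) := by
    intro Y Z Y' Z' h h' hi
    rw [Set.disjoint_left]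
    intro b hb hb'
    have k1 := inA Y Z h b hb
    have k2 := inA Y' Z' h' b hb'
    have : b ∈ (X ⊔ Y) ⊓ (X ⊔ Y') := ⟨k1.1, k2.1⟩
    rw [hi] at this
    exact k1.2 this
  have f1 : (((Ya : Set B) ∪ Za) \ X).Finite := (hU.subset (Set.union_subset uYa uZa)).subset Set.sdiff_subset
  have f2 : (((Yb : Set B) ∪ Zb) \ X).Finite := (hU.subset (Set.union_subset uYb uZb)).subset Set.sdiff_subset
  have f3 : (((Yc : Set B) ∪ Zc) \ X).Finite := (hU.subset (Set.union_subset uYc uZc)).subset Set.sdiff_subset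
  have fX : (X : Set B).Finite := hU.subset uX
  have n1 : ((X : Set B) ∪ (((Ya : Set B) ∪ Za) \ X)).ncard =
      (X : Set B).ncard + (((Ya : Set B) ∪ Za) \ X).ncard :=
    Set.ncard_union_eq Set.disjoint_sdiff_right fX f1
  have n2 := Set.ncard_union_eq (s := (X : Set B) ∪ (((Ya : Set B) ∪ Za) \ X))
    (t := ((Yb : Set B) ∪ Zb) \ X) (Set.disjoint_union_left.2 ⟨Set.disjoint_sdiff_right,
      dis _ _ _ _ a3 b3 iab⟩) (fX.union f1) f2
  have n3 := Set.ncard_union_eq (s := (X : Set B) ∪ (((Ya : Set B) ∪ Za) \ X) ∪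
    (((Yb : Set B) ∪ Zb) \ X)) (t := ((Yc : Set B) ∪ Zc) \ X) (Set.disjoint_union_left.2
      ⟨Set.disjoint_union_left.2 ⟨Set.disjoint_sdiff_right, dis _ _ _ _ a3 c3 iac⟩,
      dis _ _ _ _ b3 c3 ibc⟩) ((fX.union f1).union f2) f3
  have hsub : (X : Set B) ∪ (((Ya : Set B) ∪ Za) \ X) ∪ (((Yb : Set B) ∪ Zb) \ X) ∪
      (((Yc : Set B) ∪ Zc) \ X) ⊆ U := by
    refine Set.union_subset (Set.union_subset (Set.union_subset uX ?_) ?_) ?_
    · exact Set.sdiff_subset.trans (Set.union_subset uYa uZa)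
    · exact Set.sdiff_subset.trans (Set.union_subset uYb uZb)
    · exact Set.sdiff_subset.trans (Set.union_subset uYc uZc)
  have hle := (Set.ncard_le_ncard hsub hU).trans hU16
  have hXn : (X : Set B).ncard = 8 := hX8
  omega

end

end Pool.Agent.R649.ETS
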