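import Mathlib

set_option autoImplicit false

/-! Unions of subgroups of groups of exponent two. -/

namespace Pool.Agent.R649.ETS

section
variable {B : Type*} [AddCommGroup B]

lemma card_mul_rel {X Y : AddSubgroup B} (h : X ≤ Y) : Nat.card X * X.relIndex Y = Nat.card Y := by
  rw [← AddSubgroup.relIndex_bot_left X, ← AddSubgroup.relIndex_bot_left Y,
    AddSubgroup.relIndex_mul_relIndex _ _ _ bot_le h]

/-- the product formula -/
lemma card_sup_inf (X Y : AddSubgroup B) :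
    Nat.card (X ⊔ Y : AddSubgroup B) * Nat.card (X ⊓ Y : AddSubgroup B) =
      Nat.card X * Nat.card Y := by
  have h1 : Y.relIndex (X ⊔ Y) = Y.relIndex X := AddSubgroup.relIndex_sup_right X Y
  have h2 := card_mul_rel (le_sup_right : Y ≤ X ⊔ Y)
  have h3 := card_mul_rel (inf_le_left : X ⊓ Y ≤ X)
  rw [AddSubgroup.inf_relIndex_left] at h3
  rw [← h2, h1, ← h3]
  ring

/-- cardinalities are powers of two -/
lemma pow_two (hB : ∀ b : B, b + b = 0) (X : AddSubgroup B) [Finite X] :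
    ∃ n, Nat.card X = 2 ^ n := by
  let _ : Module (ZMod 2) X := AddCommGroup.zmodModule (n := 2) (by
    intro x
    rw [two_smul]
    exact Subtype.ext (hB x))
  refine ⟨Module.finrank (ZMod 2) X, ?_⟩
  have := Module.natCard_eq_pow_finrank (K := ZMod 2) (V := X)
  rwa [Nat.card_zmod] at this

/-- the union of three subgroups -/
lemma union_three (X Y Z : AddSubgroup B) [Finite X] [Finite Y] [Finite Z] :
    Nat.card X + Nat.card Y + Nat.card Z + 1 ≤
      ((X : Set B) ∪ Y ∪ Z).ncard + Nat.card (X ⊓ Y : AddSubgroup B) +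
        Nat.card (X ⊓ Z : AddSubgroup B) + Nat.card (Y ⊓ Z : AddSubgroup B) := by
  have fX : (X : Set B).Finite := Set.toFinite _
  have fY : (Y : Set B).Finite := Set.toFinite _
  have fZ : (Z : Set B).Finite := Set.toFinite _
  have h1 := Set.ncard_union_add_ncard_inter (X : Set B) Y fX fY
  have h2 := Set.ncard_union_add_ncard_inter ((X : Set B) ∪ Y) Z (fX.union fY) fZ
  have h3 := Set.ncard_union_add_ncard_inter ((X : Set B) ∩ Z) ((Y : Set B) ∩ Z)
    (fX.inter_of_left _) (fY.inter_of_left _)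
  have e1 : ((X : Set B) ∪ Y) ∩ Z = ((X : Set B) ∩ Z) ∪ ((Y : Set B) ∩ Z) := Set.union_inter_distrib_right _ _ _
  rw [e1] at h2
  have c (W : AddSubgroup B) : (W : Set B).ncard = Nat.card W := rfl
  have h4 : 1 ≤ (((X : Set B) ∩ Z) ∩ ((Y : Set B) ∩ Z)).ncard := by
    rw [Nat.one_le_iff_ne_zero, ← Nat.pos_iff_ne_zero, Set.ncard_pos
      ((fX.inter_of_left _).inter_of_left _)]
    exact ⟨0, ⟨X.zero_mem, Z.zero_mem⟩, ⟨Y.zero_mem, Z.zero_mem⟩⟩
  have c1 : ((X : Set B) ∩ Y).ncard = Nat.card (X ⊓ Y : AddSubgroup B) := rfl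
  have c2 : ((X : Set B) ∩ Z).ncard = Nat.card (X ⊓ Z : AddSubgroup B) := rfl
  have c3 : ((Y : Set B) ∩ Z).ncard = Nat.card (Y ⊓ Z : AddSubgroup B) := rfl
  rw [c1, c X, c Y] at h1
  rw [c Z] at h2
  rw [c2, c3] at h3
  omega

end

end Pool.Agent.R649.ETS
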