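import Pool.Agent.R649.ET.Count
import Pool.Agent.TH188.ET.Cor

set_option autoImplicit false

/-! Quaternionic structures with at most sixteen quaternions. -/

namespace Pool.Agent.R649.ETS

open Pool.Agent.TH188.ETV Pool.Agent.H315R3.ETC

universe v w

section
variable {G : Type w} [CommGroup G] {B : Type v} [AddCommGroup B]

lemma mem_Qs (hB : ∀ b : B, b + b = 0) (β : G → G → B)
    (hmul : ∀ a b c, β a (b * c) = β a b + β a c) (p : G) (h : B) :
    h ∈ Qs β p ↔ ∃ b, β p b = h := by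
  have b1 : β p 1 = 0 := by
    have := hmul p 1 1
    rw [mul_one] at this
    exact left_eq_add.1 this
  constructor
  · intro hh
    refine AddSubgroup.closure_induction (p := fun h _ => ∃ b, β p b = h) ?_ ?_ ?_ ?_ hh
    · rintro _ ⟨b, rfl⟩; exact ⟨b, rfl⟩
    · exact ⟨1, b1⟩
    · rintro _ _ _ _ ⟨b, rfl⟩ ⟨c, rfl⟩
      exact ⟨b * c, hmul _ _ _⟩
    · rintro _ _ ⟨b, rfl⟩
      exact ⟨b, (neg_eq_iff_add_eq_zero.2 (hB _)).symm⟩
  · rintro ⟨b, rfl⟩
    exact AddSubgroup.subset_closure ⟨b, rfl⟩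

lemma finite_sup (X Y : AddSubgroup B) [Finite X] [Finite Y] : Finite (X ⊔ Y : AddSubgroup B) := by
  apply Nat.finite_of_card_ne_zero
  intro h0
  have c1 := card_sup_inf X Y
  rw [h0, zero_mul] at c1
  have h1 : 0 < Nat.card X := Nat.card_pos
  have h2 : 0 < Nat.card Y := Nat.card_pos
  have := Nat.mul_pos h1 h2
  omega

/-- index at most two -/
lemma two_of_card (X V : AddSubgroup B) (hXV : X ≤ V) [Finite V] (h : Nat.card V ≤ 2 * Nat.card X) :
    ∀ u ∈ V, ∀ v ∈ V, u ∈ X ∨ v ∈ X ∨ u + v ∈ X := by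
  have h1 := card_mul_rel hXV
  have hV : 0 < Nat.card V := Nat.card_pos
  have hpos : 0 < Nat.card X := by
    rcases Nat.eq_zero_or_pos (Nat.card X) with h0 | h0
    · rw [h0, zero_mul] at h1; omega
    · exact h0
  have h2 : X.relIndex V ≤ 2 := by
    by_contra hc
    have : Nat.card X * 3 ≤ Nat.card X * X.relIndex V := Nat.mul_le_mul_left _ (by omega)
    omega
  have h0 : X.relIndex V ≠ 0 := by
    intro h0
    rw [h0, mul_zero] at h1
    omega
  by_cases h3 : X.relIndex V = 2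
  · intro u hu v hv
    have h4 : (X.addSubgroupOf V).index = 2 := h3
    have h5 := AddSubgroup.add_mem_iff_of_index_two h4 (a := ⟨u, hu⟩) (b := ⟨v, hv⟩)
    simp only [AddSubgroup.mem_addSubgroupOf, AddSubgroup.coe_add] at h5
    tauto
  · intro u hu v hv
    have h4 : X.relIndex V = 1 := by omega
    exact Or.inl (AddSubgroup.relIndex_eq_one.1 h4 hu)

/-- at most sixteen values with a slot in `⟨x,y,z⟩` -/
theorem small_of_union (hB : ∀ b : B, b + b = 0) (β : G → G → B) (hexp : ∀ a : G, a * a = 1)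
    (hmul : ∀ a b c, β a (b * c) = β a b + β a c)
    (hmul' : ∀ a b c, β (a * b) c = β a c + β b c) (x y z : G)
    (hfin : {t : B | ∃ g ∈ Subgroup.closure {x, y, z}, ∃ b, β g b = t}.Finite)
    (hU : {t : B | ∃ g ∈ Subgroup.closure {x, y, z}, ∃ b, β g b = t}.ncard ≤ 16) :
    SmallG β x y z := by
  set U : Set B := {t : B | ∃ g ∈ Subgroup.closure {x, y, z}, ∃ b, β g b = t} with hUdef
  set W : Subgroup G := Subgroup.closure {x, y, z} with hW
  have hx : x ∈ W := Subgroup.subset_closure (by simp)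
  have hy : y ∈ W := Subgroup.subset_closure (by simp)
  have hz : z ∈ W := Subgroup.subset_closure (by simp)
  have sub : ∀ g ∈ W, (Qs β g : Set B) ⊆ U := by
    intro g hg t ht
    obtain ⟨b, hb⟩ := (mem_Qs hB β hmul g t).1 ht
    exact ⟨g, hg, b, hb⟩
  have fin : ∀ g ∈ W, Finite (Qs β g) := fun g hg => hfin.subset (sub g hg)
  have rel : ∀ g h : G, Qs β (g * h) ≤ Qs β g ⊔ Qs β h := by
    intro g h t ht
    obtain ⟨b, rfl⟩ := (mem_Qs hB β hmul _ t).1 ht
    rw [hmul']
    exact AddSubgroup.add_mem_sup ((mem_Qs hB β hmul _ _).2 ⟨b, rfl⟩)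
      ((mem_Qs hB β hmul _ _).2 ⟨b, rfl⟩)
  have key : ∀ p a b : G, p ∈ W → a ∈ W → b ∈ W → 4 < Nat.card (Qs β p) →
      ∀ V : AddSubgroup B, V ≤ Qs β p ⊔ Qs β a ⊔ Qs β b →
      ∀ u ∈ V, ∀ v ∈ V, u ∈ Qs β p ∨ v ∈ Qs β p ∨ u + v ∈ Qs β p := by
    intro p a b hp ha hb hc V hV u hu v hv
    have := fin p hp
    have := fin a ha
    have := fin b hb
    have := finite_sup (Qs β p) (Qs β a)
    have := finite_sup (Qs β p ⊔ Qs β a) (Qs β b)
    have ab : a * b ∈ W := W.mul_mem ha hb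
    have t1 : ∀ g : G, g * (p * g) = p := by
      intro g
      rw [mul_left_comm, hexp, mul_one]
    have t2 : ∀ g : G, p * (p * g) = g := by
      intro g
      rw [← mul_assoc, hexp, one_mul]
    have s1 : ∀ g : G, Qs β p ≤ Qs β g ⊔ Qs β (p * g) := by
      intro g
      have := rel g (p * g)
      rwa [t1] at this
    have s2 : ∀ g : G, Qs β g ≤ Qs β p ⊔ Qs β (p * g) := by
      intro g
      have := rel p (p * g)
      rwa [t2] at this
    have d1 : Qs β a ≤ Qs β b ⊔ Qs β (a * b) := by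
      have := rel b (a * b)
      rwa [show b * (a * b) = a by rw [mul_left_comm, hexp, mul_one]] at this
    have d2 : Qs β b ≤ Qs β a ⊔ Qs β (a * b) := by
      have := rel a (a * b)
      rwa [show a * (a * b) = b by rw [← mul_assoc, hexp, one_mul]] at this
    have h := index_two hB U hfin hU (Qs β p) (Qs β a) (Qs β (p * a)) (Qs β b) (Qs β (p * b))
      (Qs β (a * b)) (Qs β (p * (a * b))) (sub _ hp) (sub _ ha) (sub _ (W.mul_mem hp ha))
      (sub _ hb) (sub _ (W.mul_mem hp hb)) (sub _ ab) (sub _ (W.mul_mem hp ab))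
      (s1 a) (s2 a) (rel p a) (s1 b) (s2 b) (rel p b) (s1 (a * b)) (s2 (a * b)) (rel p (a * b))
      d1 d2 (rel a b) hc
    exact two_of_card (Qs β p) _ (le_sup_left.trans le_sup_left) h u (hV hu) v (hV hv)
  by_cases h4 : ∀ p : G, p = x ∨ p = y ∨ p = z ∨ p = x * y * z → Nat.card (Qs β p) ≤ 4
  · exact Or.inl h4
  · push Not at h4
    obtain ⟨p, hp, hc⟩ := h4
    refine Or.inr ⟨p, hp, ?_⟩
    rcases hp with rfl | rfl | rfl | rfl
    · exact key _ y z hx hy hz hc _ le_rfl
    · refine key _ x z hy hx hz hc _ (sup_le (sup_le ?_ ?_) ?_)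
      · exact le_sup_right.trans le_sup_left
      · exact le_sup_left.trans le_sup_left
      · exact le_sup_right
    · refine key _ x y hz hx hy hc _ (sup_le (sup_le ?_ ?_) ?_)
      · exact le_sup_right.trans le_sup_left
      · exact le_sup_right
      · exact le_sup_left.trans le_sup_left
    · refine key _ x y (W.mul_mem (W.mul_mem hx hy) hz) hx hy hc _ (sup_le (sup_le ?_ ?_) ?_)
      · exact le_sup_right.trans le_sup_left
      · exact le_sup_right
      · have e : (x * y * z) * (x * y) = z := by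
          have : (x * y * z) * (x * y) = (x * x) * (y * y) * z := by
            simp only [mul_assoc, mul_comm, mul_left_comm]
          rw [this, hexp, hexp, one_mul, one_mul]
        have h1 := rel (x * y * z) (x * y)
        rw [e] at h1
        refine h1.trans (sup_le (le_sup_left.trans le_sup_left) ((rel x y).trans (sup_le
          (le_sup_right.trans le_sup_left) le_sup_right)))

end

/-- comparison of the numbers of values -/
lemma vals_ncard {S : QData} {B : Type v} [AddCommGroup B] (β : S.G → S.G → B) [Finite S.G]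
    (hiff : ∀ a b c d, β a b = β c d ↔ S.q a b = S.q c d) (W : Set S.G) :
    {t : B | ∃ g ∈ W, ∃ b, β g b = t}.Finite ∧
    {t : B | ∃ g ∈ W, ∃ b, β g b = t}.ncard ≤ {t : S.Q | ∃ g ∈ W, ∃ b, S.q g b = t}.ncard := by
  classical
  have hf : {t : B | ∃ g ∈ W, ∃ b, β g b = t}.Finite := by
    refine (Set.finite_range (fun p : S.G × S.G => β p.1 p.2)).subset ?_
    rintro t ⟨g, -, b, rfl⟩
    exact ⟨(g, b), rfl⟩
  have hfQ : {t : S.Q | ∃ g ∈ W, ∃ b, S.q g b = t}.Finite := by
    refine (Set.finite_range (fun p : S.G × S.G => S.q p.1 p.2)).subset ?_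
    rintro t ⟨g, -, b, rfl⟩
    exact ⟨(g, b), rfl⟩
  refine ⟨hf, ?_⟩
  have hne : Nonempty S.Q := ⟨S.zero⟩
  have key : ∀ t ∈ {t : B | ∃ g ∈ W, ∃ b, β g b = t}, ∃ s : S.Q, ∃ g ∈ W, ∃ b, β g b = t ∧
      S.q g b = s := by
    rintro t ⟨g, hg, b, rfl⟩
    exact ⟨_, g, hg, b, rfl, rfl⟩
  choose! f hfs using key
  refine Set.ncard_le_ncard_of_injOn f ?_ ?_ hfQ
  · intro t ht
    obtain ⟨g, hg, b, -, h2⟩ := hfs t ht
    exact ⟨g, hg, b, h2⟩
  · intro t ht t' ht' e
    obtain ⟨g, hg, b, h1, h2⟩ := hfs t ht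
    obtain ⟨g', hg', b', h1', h2'⟩ := hfs t' ht'
    rw [← h1, ← h1', hiff, h2, h2', e]

/-- **Local form**: for all `x, y, z` the quaternions with a slot in `⟨x,y,z⟩` are at most sixteen,
or the four groups of quaternions with slot `x`, `y`, `z`, `xyz` have at most four elements. -/
theorem elem_of_local (S : QData) (hS : IsQuat S) (hfin : Finite S.G) {B : Type v}
    [AddCommGroup B] (hB : ∀ b : B, b + b = 0) (β : S.G → S.G → B)
    (hmul : ∀ a b c, β a (b * c) = β a b + β a c)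
    (hiff : ∀ a b c d, β a b = β c d ↔ S.q a b = S.q c d)
    (h : ∀ x y z : S.G, {t : S.Q | ∃ g ∈ Subgroup.closure {x, y, z}, ∃ b, S.q g b = t}.ncard ≤ 16 ∨
      ∀ p : S.G, p = x ∨ p = y ∨ p = z ∨ p = x * y * z → {t : S.Q | ∃ b, S.q p b = t}.ncard ≤ 4) :
    Elem S := by
  have hsym : ∀ a b, β a b = β b a := fun a b => (hiff _ _ _ _).2 (hS.qs2 a b)
  have hmul' : ∀ a b c, β (a * b) c = β a c + β b c := by
    intro a b c
    rw [hsym, hmul, hsym c, hsym c]
  refine elem_of_small S hS hfin hB β hmul hiff fun x y z => ?_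
  rcases h x y z with h | h
  · obtain ⟨h1, h2⟩ := vals_ncard β hiff (Subgroup.closure {x, y, z} : Subgroup S.G)
    exact small_of_union hB β hS.exp2 hmul hmul' x y z h1 (h2.trans h)
  · refine Or.inl fun p hp => ?_
    obtain ⟨h1, h2⟩ := vals_ncard β hiff {p}
    have e1 : {t : S.Q | ∃ g ∈ ({p} : Set S.G), ∃ b, S.q g b = t} = {t : S.Q | ∃ b, S.q p b = t} := by
      ext t; simp
    have e2 : {t : B | ∃ g ∈ ({p} : Set S.G), ∃ b, β g b = t} = (Qs β p : Set B) := by
      ext t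
      rw [SetLike.mem_coe, mem_Qs hB β hmul]
      simp
    rw [e1, e2] at h2
    exact h2.trans (h p hp)

theorem elem_of_sixteen (S : QData) (hS : IsQuat S) (hfin : Finite S.G) {B : Type v}
    [AddCommGroup B] (hB : ∀ b : B, b + b = 0) (β : S.G → S.G → B)
    (hmul : ∀ a b c, β a (b * c) = β a b + β a c)
    (hiff : ∀ a b c d, β a b = β c d ↔ S.q a b = S.q c d)
    (h : {t : S.Q | ∃ a b, S.q a b = t}.ncard ≤ 16) : Elem S := by
  refine elem_of_local S hS hfin hB β hmul hiff fun x y z => Or.inl (le_trans ?_ h)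
  have hfQ : {t : S.Q | ∃ a b, S.q a b = t}.Finite := by
    refine (Set.finite_range (fun p : S.G × S.G => S.q p.1 p.2)).subset ?_
    rintro t ⟨g, b, rfl⟩
    exact ⟨(g, b), rfl⟩
  refine Set.ncard_le_ncard ?_ hfQ
  rintro t ⟨g, -, b, rfl⟩
  exact ⟨g, b, rfl⟩

end Pool.Agent.R649.ETS
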